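import Pool.Agent.Y110.FJ.Stm2
import Pool.Agent.Y110.FJ.Stm3

/-!
# Artin groups as local quotients of free products
-/

set_option autoImplicit false

namespace Pool.Agent.Y929.FJ

open Monoid Pool.Agent.Y110.FJ Pool.Agent.Y110.KW

section alt

lemma map_alt {G H : Type} [Group G] [Group H] (f : G →* H) :
    ∀ (n : ℕ) (a b : G), f (alt n a b) = alt n (f a) (f b)
  | 0, _, _ => map_one f
  | n + 1, a, b => by rw [alt, alt, map_mul, map_alt f n b a]

lemma alt_even {G : Type} [Group G] (x : G) (k : ℕ) :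
    alt (2 * k) x 1 = x ^ k ∧ alt (2 * k) 1 x = x ^ k := by
  induction k with
  | zero => simp [alt]
  | succ k ih =>
    have e : 2 * (k + 1) = 2 * k + 1 + 1 := by ring
    rw [e, alt, alt, alt, alt, ih.1, ih.2, one_mul, one_mul, pow_succ']
    exact ⟨rfl, rfl⟩

lemma alt_one {G : Type} [Group G] {n : ℕ} (hn : Even n) (x : G) : alt n x 1 = alt n 1 x := by
  obtain ⟨k, hk⟩ := hn
  have e : n = 2 * k := by omega
  rw [e, (alt_even x k).1, (alt_even x k).2]

end alt

section artin

variable {V H : Type} [Group H] (M : V → V → ℕ)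

/-- the generators -/
def agen (v : V) : ArtinG M := QuotientGroup.mk (FreeGroup.of v)

/-- homomorphisms out of the Artin group -/
def artinLift (φ : V → H)
    (hφ : ∀ v w, v ≠ w → alt (M v w) (φ v) (φ w) = alt (M v w) (φ w) (φ v)) : ArtinG M →* H :=
  QuotientGroup.lift _ (FreeGroup.lift φ) (by
    intro r hr
    have h1 : Subgroup.normalClosure (artinRel M) ≤ (FreeGroup.lift φ).ker := by
      apply Subgroup.normalClosure_le_normal
      rintro _ ⟨v, w, hvw, rfl⟩
      change FreeGroup.lift φ _ = 1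
      rw [map_mul, map_inv, map_alt, map_alt, FreeGroup.lift_apply_of, FreeGroup.lift_apply_of,
        hφ v w hvw, mul_inv_cancel]
    exact h1 hr)

lemma artinLift_gen (φ : V → H)
    (hφ : ∀ v w, v ≠ w → alt (M v w) (φ v) (φ w) = alt (M v w) (φ w) (φ v)) (v : V) :
    artinLift M φ hφ (agen M v) = φ v := by
  change FreeGroup.lift φ (FreeGroup.of v) = φ v
  rw [FreeGroup.lift_apply_of]

lemma agen_rel {v w : V} (h : v ≠ w) :
    alt (M v w) (agen M v) (agen M w) = alt (M v w) (agen M w) (agen M v) := by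
  have h1 : (QuotientGroup.mk' (Subgroup.normalClosure (artinRel M)))
      (alt (M v w) (FreeGroup.of v) (FreeGroup.of w) *
        (alt (M v w) (FreeGroup.of w) (FreeGroup.of v))⁻¹) = 1 := by
    rw [← MonoidHom.mem_ker, QuotientGroup.ker_mk']
    exact Subgroup.subset_normalClosure ⟨v, w, h, rfl⟩
  rw [map_mul, map_inv, map_alt, map_alt, mul_inv_eq_one] at h1
  exact h1

lemma artin_ext {M} {f g : ArtinG M →* H} (h : ∀ v : V, f (agen M v) = g (agen M v)) : f = g := by
  apply QuotientGroup.monoidHom_ext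
  apply FreeGroup.ext_hom
  intro v
  exact h v

end artin

section main

variable {V K : Type} (M : V → V → ℕ) (κ : V → K)

/-- the Artin group of the generators of colour `a` -/
abbrev PA (a : K) : Type := ArtinG (fun v w : {v // κ v = a} => M v w)

/-- the generator in the free product -/
def XX (v : V) : CoprodI (PA M κ) :=
  CoprodI.of (i := κ v) (agen (fun v' w' : {v' // κ v' = κ v} => M v' w') ⟨v, rfl⟩)

/-- the relations between different colours -/
def RR : Set (CoprodI (PA M κ)) :=
  {r | ∃ v w : V, κ v ≠ κ w ∧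
    r = alt (M v w) (XX M κ v) (XX M κ w) * (alt (M v w) (XX M κ w) (XX M κ v))⁻¹}

lemma keep_XX_mem {S : Set K} {v : V} (h : κ v ∈ S) : keep S (XX M κ v) = XX M κ v :=
  keep_of_mem h _

lemma keep_XX_notMem {S : Set K} {v : V} (h : κ v ∉ S) : keep S (XX M κ v) = 1 :=
  keep_of_notMem h _

variable {M κ}

lemma RR_local (hev : ∀ v w, κ v ≠ κ w → Even (M v w)) : IsLocal (RR M κ) := by
  rintro _ ⟨v, w, hvw, rfl⟩ S
  rw [map_mul, map_inv, map_alt, map_alt]
  by_cases hv : κ v ∈ S
  · by_cases hw : κ w ∈ S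
    · left
      rw [keep_XX_mem M κ hv, keep_XX_mem M κ hw]
    · right
      rw [keep_XX_mem M κ hv, keep_XX_notMem M κ hw, alt_one (hev v w hvw), mul_inv_cancel]
  · right
    by_cases hw : κ w ∈ S
    · rw [keep_XX_notMem M κ hv, keep_XX_mem M κ hw, alt_one (hev v w hvw), mul_inv_cancel]
    · rw [keep_XX_notMem M κ hv, keep_XX_notMem M κ hw, mul_inv_cancel]

lemma RR_linked (hsym : ∀ v w, M v w = M w v) {a b : K} (hab : a ≠ b)
    (h : Linked (RR M κ) a b) : ∃ v w, κ v = a ∧ κ w = b ∧ M v w ≠ 0 := by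
  obtain ⟨_, ⟨v, w, hvw, rfl⟩, ha, hb⟩ := h
  have hM : M v w ≠ 0 := by
    intro h0
    apply ha
    rw [h0]
    simp only [alt, inv_one, mul_one, map_one]
  have key : ∀ c : K, Involves (alt (M v w) (XX M κ v) (XX M κ w) *
      (alt (M v w) (XX M κ w) (XX M κ v))⁻¹ : CoprodI (PA M κ)) c → c = κ v ∨ c = κ w := by
    intro c hc
    by_contra hcon
    push Not at hcon
    apply hc
    have hv : κ v ∈ ({c}ᶜ : Set K) := by simpa using hcon.1.symm
    have hw : κ w ∈ ({c}ᶜ : Set K) := by simpa using hcon.2.symm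
    rw [map_mul, map_inv, map_alt, map_alt, keep_XX_mem M κ hv, keep_XX_mem M κ hw]
  rcases key a ha with ha' | ha'
  · rcases key b hb with hb' | hb'
    · exact absurd (ha'.trans hb'.symm) hab
    · exact ⟨v, w, ha'.symm, hb'.symm, hM⟩
  · rcases key b hb with hb' | hb'
    · exact ⟨w, v, ha'.symm, hb'.symm, by rw [hsym w v]; exact hM⟩
    · exact absurd (ha'.trans hb'.symm) hab

variable (M κ)

/-- the generator in the quotient, with an arbitrary name of the colour -/
def qg (a : K) (v : V) (hv : κ v = a) : Quo (RR M κ) :=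
  fac (RR M κ) a (agen (fun v' w' : {v' // κ v' = a} => M v' w') ⟨v, hv⟩)

lemma qg_eq (a : K) (v : V) (hv : κ v = a) : qg M κ (κ v) v rfl = qg M κ a v hv := by
  subst hv
  rfl

/-- from the Artin group to the quotient -/
def toQ : ArtinG M →* Quo (RR M κ) :=
  artinLift M (fun v => qg M κ (κ v) v rfl) (by
    intro v w hvw
    by_cases h : κ v = κ w
    · rw [qg_eq M κ (κ w) v h]
      unfold qg
      rw [← map_alt, ← map_alt]
      congr 1
      exact agen_rel (fun v' w' : {v' // κ v' = κ w} => M v' w') (v := ⟨v, h⟩) (w := ⟨w, rfl⟩)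
        (fun h' => hvw (congrArg Subtype.val h'))
    · have h1 : (QuotientGroup.mk (alt (M v w) (XX M κ v) (XX M κ w) *
          (alt (M v w) (XX M κ w) (XX M κ v))⁻¹) : Quo (RR M κ)) = 1 := mk_rel ⟨v, w, h, rfl⟩
      have h2 : (QuotientGroup.mk' (Subgroup.normalClosure (RR M κ)))
          (alt (M v w) (XX M κ v) (XX M κ w) * (alt (M v w) (XX M κ w) (XX M κ v))⁻¹) = 1 := h1
      rw [map_mul, map_inv, map_alt, map_alt, mul_inv_eq_one] at h2
      exact h2)

lemma toQ_gen (v : V) : toQ M κ (agen M v) = qg M κ (κ v) v rfl := artinLift_gen _ _ _ _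

/-- from the quotient to the Artin group -/
def ofQ : Quo (RR M κ) →* ArtinG M :=
  quoLift (CoprodI.lift fun a => artinLift (fun v w : {v // κ v = a} => M v w)
    (fun v => agen M v) (fun v w hvw => agen_rel M (fun h => hvw (Subtype.ext h)))) (by
    rintro _ ⟨v, w, hvw, rfl⟩
    have hX : ∀ u : V, CoprodI.lift (fun a => artinLift (fun v w : {v // κ v = a} => M v w)
        (fun v => agen M v) (fun v w hvw => agen_rel M (fun h => hvw (Subtype.ext h))))
        (XX M κ u) = agen M u := by
      intro u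
      unfold XX
      rw [CoprodI.lift_of, artinLift_gen]
    rw [map_mul, map_inv, map_alt, map_alt, hX, hX,
      agen_rel M (fun h => hvw (congrArg κ h)), mul_inv_cancel])

lemma ofQ_gen (a : K) (v : V) (hv : κ v = a) : ofQ M κ (qg M κ a v hv) = agen M v := by
  unfold ofQ qg
  rw [quoLift_fac, CoprodI.lift_of, artinLift_gen]

open Classical in
/-- the retraction to the parabolic subgroup -/
noncomputable def rho (hev : ∀ v w, κ v ≠ κ w → Even (M v w)) (σ : Finset K) :
    ArtinG M →* ArtinG (restr M κ σ) :=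
  artinLift M (fun v => if h : κ v ∈ σ then agen (restr M κ σ) ⟨v, h⟩ else 1) (by
    intro v w hvw
    by_cases hv : κ v ∈ σ
    · by_cases hw : κ w ∈ σ
      · rw [dif_pos hv, dif_pos hw]
        exact agen_rel (restr M κ σ) (v := ⟨v, hv⟩) (w := ⟨w, hw⟩)
          (fun h' => hvw (congrArg Subtype.val h'))
      · rw [dif_pos hv, dif_neg hw]
        exact alt_one (hev v w (fun h => hw (h ▸ hv))) _
    · by_cases hw : κ w ∈ σ
      · rw [dif_neg hv, dif_pos hw]
        exact (alt_one (hev v w (fun h => hv (h ▸ hw))) _).symm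
      · rw [dif_neg hv, dif_neg hw])

lemma rho_gen (hev : ∀ v w, κ v ≠ κ w → Even (M v w)) (σ : Finset K) (v : V) (h : κ v ∈ σ) :
    rho M κ hev σ (agen M v) = agen (restr M κ σ) ⟨v, h⟩ := by
  unfold rho
  rw [artinLift_gen, dif_pos h]

/-- the homomorphism from the Artin group of some colours -/
def incl (σ : Finset K) : ArtinG (restr M κ σ) →* Quo (RR M κ) :=
  (toQ M κ).comp (artinLift (restr M κ σ) (fun v => agen M v)
    (fun _ _ hvw => agen_rel M (fun h => hvw (Subtype.ext h))))

lemma incl_gen (σ : Finset K) (v : V) (h : κ v ∈ σ) :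
    incl M κ σ (agen (restr M κ σ) ⟨v, h⟩) = qg M κ (κ v) v rfl := by
  unfold incl
  rw [MonoidHom.comp_apply, artinLift_gen, toQ_gen]

end main

/-- **Artin groups.** -/
theorem t_art (h : S_LOC) : S_ART := by
  intro C hC V K M κ hsym hev hσ
  have h1 : C (Quo (RR M κ)) := by
    refine h C hC K (PA M κ) (RR M κ) (RR_local hev) fun σ hcl => ?_
    have h2 : C (ArtinG (restr M κ σ)) := hσ σ fun a ha b hb hab =>
      RR_linked hsym hab (hcl a ha b hb hab)
    refine hC.base.of_injective _ _
      (((rho M κ hev σ).comp (ofQ M κ)).comp (para (RR M κ) (σ : Set K)).subtype) ?_ h2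
    have h3 : para (RR M κ) (σ : Set K) ≤
        (((incl M κ σ).comp ((rho M κ hev σ).comp (ofQ M κ))).eqLocus (MonoidHom.id _)) := by
      refine iSup₂_le fun a ha => ?_
      rintro _ ⟨x, rfl⟩
      have h4 : ((incl M κ σ).comp ((rho M κ hev σ).comp (ofQ M κ))).comp (fac (RR M κ) a) =
          fac (RR M κ) a := by
        apply artin_ext
        rintro ⟨v, hv⟩
        have hvσ : κ v ∈ σ := by
          rw [hv]
          exact ha
        change incl M κ σ (rho M κ hev σ (ofQ M κ (qg M κ a v hv))) = qg M κ a v hv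
        rw [ofQ_gen, rho_gen M κ hev σ v hvσ, incl_gen, qg_eq M κ a v hv]
      exact DFunLike.congr_fun h4 x
    intro x y hxy
    apply Subtype.ext
    have hx := h3 x.2
    have hy := h3 y.2
    have hx' : incl M κ σ (rho M κ hev σ (ofQ M κ (x : Quo (RR M κ)))) = x := hx
    have hy' : incl M κ σ (rho M κ hev σ (ofQ M κ (y : Quo (RR M κ)))) = y := hy
    rw [← hx', ← hy']
    exact congrArg (incl M κ σ) hxy
  refine hC.base.of_injective _ _ (toQ M κ) ?_ h1
  have h2 : (ofQ M κ).comp (toQ M κ) = MonoidHom.id _ := by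
    apply artin_ext
    intro v
    rw [MonoidHom.comp_apply, toQ_gen, ofQ_gen]
    rfl
  intro x y hxy
  have hx := DFunLike.congr_fun h2 x
  have hy := DFunLike.congr_fun h2 y
  rw [MonoidHom.comp_apply, MonoidHom.id_apply] at hx hy
  rw [← hx, ← hy, hxy]

end Pool.Agent.Y929.FJ
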